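import Pool.Agent.PFS.Stmts

/-!
# MP_e54c4c_gt, squad PFS, row MXI (helper20): maximality in the domain
-/

set_option autoImplicit false

open Matrix Filter Topology

namespace Pool.Agent.PFS.H20

theorem closed_cone {n m : ℕ} {w : Fin m → V n} (hw : LinearIndependent ℝ w) :
    IsClosed {y : V n | ∃ c : Fin m → ℝ, (∀ j, 0 ≤ c j) ∧ y = ∑ j, c j • w j} := by
  have hker : LinearMap.ker (Fintype.linearCombination ℝ w) = ⊥ := by
    rw [LinearMap.ker_eq_bot]
    intro a b hab
    rw [Fintype.linearIndependent_iff] at hw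
    have h1 : ∑ i, (a i - b i) • w i = 0 := by
      rw [Fintype.linearCombination_apply, Fintype.linearCombination_apply] at hab
      simp only [sub_smul, Finset.sum_sub_distrib, hab, sub_self]
    ext i
    have := hw _ h1 i
    linarith
  have hcl := LinearMap.isClosedEmbedding_of_injective hker
  have h1 : {y : V n | ∃ c : Fin m → ℝ, (∀ j, 0 ≤ c j) ∧ y = ∑ j, c j • w j} =
      (Fintype.linearCombination ℝ w) '' {c : Fin m → ℝ | ∀ j, 0 ≤ c j} := by
    ext y
    constructor
    · rintro ⟨c, hc, rfl⟩
      exact ⟨c, hc, Fintype.linearCombination_apply ℝ w c⟩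
    · rintro ⟨c, hc, rfl⟩
      exact ⟨c, hc, Fintype.linearCombination_apply ℝ w c⟩
  rw [h1]
  apply hcl.isClosedMap
  have h2 : {c : Fin m → ℝ | ∀ j, 0 ≤ c j} = ⋂ j, {c : Fin m → ℝ | 0 ≤ c j} := by
    ext c
    simp
  rw [h2]
  exact isClosed_iInter fun j => isClosed_le continuous_const (continuous_apply j)

theorem vertex_mem {n K m : ℕ} {w : Fin K → V n} {w' : Fin m → V n}
    (hw' : LinearIndependent ℝ w') (hsub : PosCone w ⊆ PosCone w') (i : Fin K) :
    ∃ c : Fin m → ℝ, (∀ j, 0 ≤ c j) ∧ w i = ∑ j, c j • w' j := by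
  classical
  have hlim : Tendsto (fun m : ℕ => ∑ j, (if j = i then (1 : ℝ) else 1 / ((m : ℝ) + 1)) • w j)
      atTop (𝓝 (∑ j, (if j = i then (1 : ℝ) else 0) • w j)) := by
    apply tendsto_finsetSum
    intro j _
    by_cases hj : j = i
    · simp only [hj, if_true]
      exact tendsto_const_nhds
    · simp only [hj, if_false]
      exact tendsto_one_div_add_atTop_nhds_zero_nat.smul_const _
  have h0 : ∑ j, (if j = i then (1 : ℝ) else 0) • w j = w i := by
    simp [ite_smul]
  rw [h0] at hlim
  refine (closed_cone hw').mem_of_tendsto hlim (Eventually.of_forall fun m => ?_)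
  have h1 : ∑ j, (if j = i then (1 : ℝ) else 1 / ((m : ℝ) + 1)) • w j ∈ PosCone w := by
    refine ⟨_, fun j => ?_, rfl⟩
    by_cases hj : j = i
    · simp only [hj, if_true]
      exact one_pos
    · simp only [hj, if_false]
      positivity
  obtain ⟨c, hc, he⟩ := hsub h1
  exact ⟨c, fun j => (hc j).le, he⟩

theorem mxi (hLIN : LinStmt) : MxiStmt := by
  intro n C hC K hK w hw hst m w' hw' hsub
  classical
  have hwi := hLIN n C hC (Fin K) w hw
  have hwi' := hLIN n C hC (Fin m) w' hw'
  have hstep : ∀ i : Fin K, ∃ (j : Fin m) (a : ℝ), 0 < a ∧ w i = a • w' j := by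
    intro i
    obtain ⟨c, hc, he⟩ := vertex_mem hwi' hsub i
    have hne : w i ≠ 0 := hwi.ne_zero i
    obtain ⟨j, hj⟩ : ∃ j, c j ≠ 0 := by
      by_contra hcon
      push Not at hcon
      apply hne
      rw [he]
      simp [hcon]
    have hcj : 0 < c j := lt_of_le_of_ne (hc j) (Ne.symm hj)
    have h1 : w i - c j • w' j ∈ closure C := by
      have h2 : w i - c j • w' j = ∑ l ∈ Finset.univ.erase j, c l • w' l := by
        rw [he, ← Finset.add_sum_erase _ _ (Finset.mem_univ j)]
        simp
      rw [h2]
      exact hC.cl_sum fun l _ => hC.cl_smul (hw'.cl l) (hc l)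
    have hIu : ({i} : Finset (Fin K)) ≠ Finset.univ := by
      intro h0
      have h2 := congrArg Finset.card h0
      rw [Finset.card_singleton, Finset.card_univ, Fintype.card_fin] at h2
      omega
    obtain ⟨d, hd, hd0, hde⟩ := hst {i} hIu 1 (c j • w' j) (hC.cl_smul (hw'.cl j) (hc j))
      (by rw [Finset.sum_singleton, one_smul]; exact h1)
    have h3 : ∑ l, d l • w l = d i • w i := by
      rw [Finset.sum_eq_single i]
      · intro l _ hl
        rw [hd0 l (by simpa using hl), zero_smul]
      · intro h
        exact absurd (Finset.mem_univ i) h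
    rw [h3] at hde
    have hdi : 0 < d i := by
      refine lt_of_le_of_ne (hd i) (Ne.symm ?_)
      intro h0
      rw [h0, zero_smul] at hde
      rcases smul_eq_zero.1 hde with h4 | h4
      · exact hj h4
      · exact hwi'.ne_zero j h4
    refine ⟨j, (d i)⁻¹ * c j, by positivity, ?_⟩
    rw [mul_smul, hde, smul_smul, inv_mul_cancel₀ hdi.ne', one_smul]
  choose σ a ha hwa using hstep
  have hinj : Function.Injective σ := by
    intro i i' hii
    by_contra hne
    rw [Fintype.linearIndependent_iff] at hwi
    have h1 : ∑ l, ((Pi.single i (a i') : Fin K → ℝ) l - (Pi.single i' (a i) : Fin K → ℝ) l) •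
        w l = 0 := by
      simp only [sub_smul, Finset.sum_sub_distrib]
      rw [Finset.sum_eq_single i, Finset.sum_eq_single i']
      · rw [Pi.single_eq_same, Pi.single_eq_same, hwa i, hwa i', smul_smul, smul_smul, hii,
          mul_comm, sub_self]
      · intro l _ hl
        rw [Pi.single_eq_of_ne hl, zero_smul]
      · intro h
        exact absurd (Finset.mem_univ _) h
      · intro l _ hl
        rw [Pi.single_eq_of_ne hl, zero_smul]
      · intro h
        exact absurd (Finset.mem_univ _) h
    have h2 := hwi _ h1 i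
    rw [Pi.single_eq_same, Pi.single_eq_of_ne hne, sub_zero] at h2
    exact (ha i').ne' h2
  have hsurj : Function.Surjective σ := by
    intro j0
    by_contra hcon
    push Not at hcon
    have h1 : ∑ i, w i = ∑ j, (∑ i, if σ i = j then a i else 0) • w' j := by
      simp only [Finset.sum_smul]
      rw [Finset.sum_comm]
      refine Finset.sum_congr rfl fun i _ => ?_
      rw [Finset.sum_eq_single (σ i)]
      · rw [if_pos rfl, ← hwa i]
      · intro j _ hj
        rw [if_neg (Ne.symm hj), zero_smul]
      · intro h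
        exact absurd (Finset.mem_univ _) h
    have h2 := hw.sum_mem
    rw [h1] at h2
    refine hw'.bd _ (fun j => ?_) ⟨j0, ?_⟩ h2
    · refine Finset.sum_nonneg fun i _ => ?_
      split_ifs
      · exact (ha i).le
      · exact le_rfl
    · refine Finset.sum_eq_zero fun i _ => ?_
      rw [if_neg (hcon i)]
  rintro y ⟨c, hc, rfl⟩
  refine ⟨fun i => c (σ i) / a i, fun i => div_pos (hc _) (ha i), ?_⟩
  have h1 := (Equiv.ofBijective σ ⟨hinj, hsurj⟩).sum_comp fun j => c j • w' j
  rw [← h1]
  refine Finset.sum_congr rfl fun i _ => ?_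
  rw [Equiv.ofBijective_apply]
  conv_rhs => rw [hwa i, smul_smul, div_mul_cancel₀ _ (ha i).ne']

end Pool.Agent.PFS.H20
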